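import Pool.Agent.Helper88_SO.Tools
import Pool.Agent.Helper64_Chan.SatOrder

/-!
# SO module KRED: satisfiability and betweenness
-/

namespace Pool.Agent.SO.H92

open Pool.Agent.Common_CookLevin (CNFLetter CNF encodeCNF)
open Pool.Agent.Helper64_Chan (Gadget gadgets wordGadgets letterGadgets wf_gadgets sat_of_rank
  rank_of_sat)

/-- the middle element is between the two others -/
def Btw (r : ℕ → ℤ) (x : ℕ × ℕ × ℕ) : Prop :=
  (r x.1 < r x.2.1 ∧ r x.2.1 < r x.2.2) ∨ (r x.2.2 < r x.2.1 ∧ r x.2.1 < r x.1)

/-- the elements of a triple are different and smaller than `N` -/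
def Ok (N : ℕ) (x : ℕ × ℕ × ℕ) : Prop :=
  x.1 < N ∧ x.2.1 < N ∧ x.2.2 < N ∧ x.1 ≠ x.2.1 ∧ x.1 ≠ x.2.2 ∧ x.2.1 ≠ x.2.2

theorem ofNat_inj {n a b : ℕ} (ha : a < n + 1) (hb : b < n + 1)
    (h : Fin.ofNat (n + 1) a = Fin.ofNat (n + 1) b) : a = b := by
  have := congrArg Fin.val h
  simpa [Fin.ofNat, Nat.mod_eq_of_lt ha, Nat.mod_eq_of_lt hb] using this

theorem distinct_of {n : ℕ} {ts : List (ℕ × ℕ × ℕ)} (h : ∀ x ∈ ts, Ok (n + 1) x) :
    Distinct3 (instOf n ts) := by
  intro j k k' hkk
  obtain ⟨h1, h2, h3, h4, h5, h6⟩ := h (ts.get j) (List.get_mem ts j)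
  unfold instOf at hkk
  fin_cases k <;> fin_cases k' <;> simp at hkk ⊢
  · exact h4 (ofNat_inj h1 h2 hkk)
  · exact h5 (ofNat_inj h1 h3 hkk)
  · exact h4 (ofNat_inj h2 h1 hkk).symm
  · exact h6 (ofNat_inj h2 h3 hkk)
  · exact h5 (ofNat_inj h3 h1 hkk).symm
  · exact h6 (ofNat_inj h3 h2 hkk).symm

theorem solvable_iff {n : ℕ} {ts : List (ℕ × ℕ × ℕ)} (h : ∀ x ∈ ts, Ok (n + 1) x) :
    Solvable (instOf n ts) ↔ ∃ r : ℕ → ℤ, (∀ a b, a < n + 1 → b < n + 1 → r a = r b → a = b) ∧
      ∀ x ∈ ts, Btw r x := by
  constructor
  · rintro ⟨r, hr, hb⟩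
    refine ⟨fun a => r (Fin.ofNat (n + 1) a), fun a b ha hb' hab => ofNat_inj ha hb' (hr hab), ?_⟩
    intro x hx
    obtain ⟨j, rfl⟩ := List.mem_iff_get.1 hx
    exact hb j
  · rintro ⟨r, hr, hb⟩
    refine ⟨fun i => r i.val, fun a b hab => Fin.ext (hr _ _ a.isLt b.isLt hab), fun j => ?_⟩
    have h1 := hb (ts.get j) (List.get_mem ts j)
    obtain ⟨h2, h3, h4, -⟩ := h (ts.get j) (List.get_mem ts j)
    have e : ∀ k : Fin 3, (instOf n ts j k).val =
        if k = 0 then (ts.get j).1 else if k = 1 then (ts.get j).2.1 else (ts.get j).2.2 := by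
      intro k
      unfold instOf
      rw [Fin.val_ofNat]
      refine Nat.mod_eq_of_lt ?_
      split_ifs <;> assumption
    have e0 := e 0
    have e1 := e 1
    have e2 := e 2
    simp only [if_true, show (1 : Fin 3) ≠ 0 by decide, show (2 : Fin 3) ≠ 0 by decide,
      show (2 : Fin 3) ≠ 1 by decide, if_false] at e0 e1 e2
    beta_reduce
    rw [e0, e1, e2]
    exact h1

/-- description of the triples of the word part -/
theorem wordT_spec (M : ℕ) : ∀ (u : List CNFLetter) (p k : ℕ), ∃ β : ℕ → ℕ,
    ∀ x ∈ wordT M p k u, (∃ a b, x = (3 * M + 2, b, a) ∧ Gadget.test a b ∈ wordGadgets M p k u) ∨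
      (∃ q, p ≤ q ∧ q < p + u.length ∧
        Gadget.down (2 * M + q) (β q) (2 * M + q + 1) ∈ wordGadgets M p k u ∧
        (x = (β q, 5 * M + 4 + q, 2 * M + q + 1) ∨ x = (3 * M + 2, 2 * M + q, 5 * M + 4 + q)))
  | [], p, k => ⟨fun _ => 0, fun x hx => by simp [wordT] at hx⟩
  | c :: u, p, k => by
    obtain ⟨β, hβ⟩ := wordT_spec M u (p + 1) (if c = .tick then k + 1 else 0)
    have tail : ∀ (b : ℕ), ∀ x ∈ wordT M (p + 1) (if c = .tick then k + 1 else 0) u,
        (∃ a b, x = (3 * M + 2, b, a) ∧ Gadget.test a b ∈ wordGadgets M p k (c :: u)) ∨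
        (∃ q, p ≤ q ∧ q < p + (c :: u).length ∧
          Gadget.down (2 * M + q) (Function.update β p b q) (2 * M + q + 1) ∈
            wordGadgets M p k (c :: u) ∧
          (x = (Function.update β p b q, 5 * M + 4 + q, 2 * M + q + 1) ∨
            x = (3 * M + 2, 2 * M + q, 5 * M + 4 + q))) := by
      intro b x hx
      rcases hβ x hx with ⟨a, b', h1, h2⟩ | ⟨q, h1, h2, h3, h4⟩
      · exact Or.inl ⟨a, b', h1, List.mem_append_right _ h2⟩
      · refine Or.inr ⟨q, by omega, by rw [List.length_cons]; omega, ?_, ?_⟩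
        · rw [Function.update_of_ne (by omega)]
          exact List.mem_append_right _ h3
        · rw [Function.update_of_ne (by omega)]
          exact h4
    cases c with
    | tick =>
      refine ⟨Function.update β p 0, fun x hx => ?_⟩
      unfold wordT at hx
      rw [List.mem_append] at hx
      rcases hx with hx | hx
      · simp only [letterT, List.mem_cons, List.not_mem_nil, or_false, or_self] at hx
        exact Or.inl ⟨_, _, hx, List.mem_append_left _ (by simp [letterGadgets])⟩
      · exact tail 0 x hx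
    | clause =>
      refine ⟨Function.update β p 0, fun x hx => ?_⟩
      unfold wordT at hx
      rw [List.mem_append] at hx
      rcases hx with hx | hx
      · simp only [letterT, List.mem_cons, List.not_mem_nil, or_false] at hx
        rcases hx with hx | hx
        · exact Or.inl ⟨_, _, hx, List.mem_append_left _ (by simp [letterGadgets])⟩
        · exact Or.inl ⟨_, _, hx, List.mem_append_left _ (by simp [letterGadgets])⟩
      · exact tail 0 x hx
    | pos =>
      refine ⟨Function.update β p k, fun x hx => ?_⟩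
      unfold wordT at hx
      rw [List.mem_append] at hx
      rcases hx with hx | hx
      · simp only [letterT, List.mem_cons, List.not_mem_nil, or_false] at hx
        refine Or.inr ⟨p, le_rfl, by rw [List.length_cons]; omega, ?_, ?_⟩
        · rw [Function.update_self]
          exact List.mem_append_left _ (by simp [letterGadgets])
        · rw [Function.update_self]
          exact hx
      · exact tail k x hx
    | neg =>
      refine ⟨Function.update β p (M + k), fun x hx => ?_⟩
      unfold wordT at hx
      rw [List.mem_append] at hx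
      rcases hx with hx | hx
      · simp only [letterT, List.mem_cons, List.not_mem_nil, or_false] at hx
        refine Or.inr ⟨p, le_rfl, by rw [List.length_cons]; omega, ?_, ?_⟩
        · rw [Function.update_self]
          exact List.mem_append_left _ (by simp [letterGadgets])
        · rw [Function.update_self]
          exact hx
      · exact tail (M + k) x hx

/-- every gadget of the word part has its triples -/
theorem wordT_conv (M : ℕ) : ∀ (u : List CNFLetter) (p k : ℕ), ∀ g ∈ wordGadgets M p k u,
    (∃ a b, g = Gadget.test a b ∧ (3 * M + 2, b, a) ∈ wordT M p k u) ∨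
    (∃ a b c t, g = Gadget.down a b c ∧ (b, t, c) ∈ wordT M p k u ∧
      (3 * M + 2, a, t) ∈ wordT M p k u)
  | [], p, k => fun g hg => by simp [wordGadgets] at hg
  | c :: u, p, k => by
    intro g hg
    unfold wordGadgets at hg
    rw [List.mem_append] at hg
    rcases hg with hg | hg
    · cases c with
      | tick =>
        simp only [letterGadgets, List.mem_cons, List.not_mem_nil, or_false] at hg
        exact Or.inl ⟨_, _, hg, List.mem_append_left _ (by simp [letterT])⟩
      | clause =>
        simp only [letterGadgets, List.mem_cons, List.not_mem_nil, or_false] at hg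
        rcases hg with hg | hg
        · exact Or.inl ⟨_, _, hg, List.mem_append_left _ (by simp [letterT])⟩
        · exact Or.inl ⟨_, _, hg, List.mem_append_left _ (by simp [letterT])⟩
      | pos =>
        simp only [letterGadgets, List.mem_cons, List.not_mem_nil, or_false] at hg
        exact Or.inr ⟨_, _, _, 5 * M + 4 + p, hg, List.mem_append_left _ (by simp [letterT]),
          List.mem_append_left _ (by simp [letterT])⟩
      | neg =>
        simp only [letterGadgets, List.mem_cons, List.not_mem_nil, or_false] at hg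
        exact Or.inr ⟨_, _, _, 5 * M + 4 + p, hg, List.mem_append_left _ (by simp [letterT]),
          List.mem_append_left _ (by simp [letterT])⟩
    · rcases wordT_conv M u (p + 1) _ g hg with ⟨a, b, h1, h2⟩ | ⟨a, b, c', t, h1, h2, h3⟩
      · exact Or.inl ⟨a, b, h1, List.mem_append_right _ h2⟩
      · exact Or.inr ⟨a, b, c', t, h1, List.mem_append_right _ h2, List.mem_append_right _ h3⟩

/-- description of all triples -/
theorem triples_spec (u : List CNFLetter) : ∃ β : ℕ → ℕ, ∀ x ∈ triples u,
    (∃ e, e < 3 * u.length + 2 ∧ x = (3 * u.length + 2, e, 3 * u.length + 3)) ∨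
    (∃ a b, x = (3 * u.length + 2, b, a) ∧ Gadget.test a b ∈ gadgets u) ∨
    (∃ v, v < u.length ∧ Gadget.up (3 * u.length + 1) v (u.length + v) ∈ gadgets u ∧
      (x = (v, 3 * u.length + 4 + v, u.length + v) ∨
        x = (3 * u.length + 2, 3 * u.length + 4 + v, 3 * u.length + 1))) ∨
    (∃ v, v < u.length ∧ Gadget.down (3 * u.length + 1) v (u.length + v) ∈ gadgets u ∧
      (x = (v, 4 * u.length + 4 + v, u.length + v) ∨
        x = (3 * u.length + 2, 3 * u.length + 1, 4 * u.length + 4 + v))) ∨
    (∃ q, q < u.length ∧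
      Gadget.down (2 * u.length + q) (β q) (2 * u.length + q + 1) ∈ gadgets u ∧
      (x = (β q, 5 * u.length + 4 + q, 2 * u.length + q + 1) ∨
        x = (3 * u.length + 2, 2 * u.length + q, 5 * u.length + 4 + q))) := by
  obtain ⟨β, hβ⟩ := wordT_spec u.length u 0 0
  refine ⟨β, fun x hx => ?_⟩
  unfold triples at hx
  rw [List.mem_append, List.mem_map, List.mem_cons, List.mem_append, List.mem_flatMap] at hx
  have hword : ∀ g ∈ wordGadgets u.length 0 0 u, g ∈ gadgets u := by
    intro g hg
    unfold gadgets
    rw [List.mem_cons, List.mem_append]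
    exact Or.inr (Or.inr hg)
  rcases hx with ⟨e, he, rfl⟩ | rfl | ⟨v, hv, hx⟩ | hx
  · exact Or.inl ⟨e, List.mem_range.1 he, rfl⟩
  · exact Or.inr (Or.inl ⟨_, _, rfl, by unfold gadgets; exact List.mem_cons_self⟩)
  · have hv' := List.mem_range.1 hv
    have h1 : Gadget.up (3 * u.length + 1) v (u.length + v) ∈ gadgets u := by
      unfold gadgets
      rw [List.mem_cons, List.mem_append, List.mem_flatMap]
      exact Or.inr (Or.inl ⟨v, hv, by simp⟩)
    have h2 : Gadget.down (3 * u.length + 1) v (u.length + v) ∈ gadgets u := by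
      unfold gadgets
      rw [List.mem_cons, List.mem_append, List.mem_flatMap]
      exact Or.inr (Or.inl ⟨v, hv, by simp⟩)
    simp only [List.mem_cons, List.not_mem_nil, or_false] at hx
    rcases hx with hx | hx | hx | hx
    · exact Or.inr (Or.inr (Or.inl ⟨v, hv', h1, Or.inl hx⟩))
    · exact Or.inr (Or.inr (Or.inl ⟨v, hv', h1, Or.inr hx⟩))
    · exact Or.inr (Or.inr (Or.inr (Or.inl ⟨v, hv', h2, Or.inl hx⟩)))
    · exact Or.inr (Or.inr (Or.inr (Or.inl ⟨v, hv', h2, Or.inr hx⟩)))
  · rcases hβ x hx with ⟨a, b, h1, h2⟩ | ⟨q, -, h2, h3, h4⟩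
    · exact Or.inr (Or.inl ⟨a, b, h1, hword _ h2⟩)
    · exact Or.inr (Or.inr (Or.inr (Or.inr ⟨q, by omega, hword _ h3, h4⟩)))

theorem triples_ok (u : List CNFLetter) : ∀ x ∈ triples u, Ok (6 * u.length + 3 + 1) x := by
  obtain ⟨β, hβ⟩ := triples_spec u
  intro x hx
  have wf := wf_gadgets u
  unfold Ok
  rcases hβ x hx with ⟨e, he, rfl⟩ | ⟨a, b, rfl, hg⟩ | ⟨v, hv, hg, h⟩ | ⟨v, hv, hg, h⟩ |
    ⟨q, hq, hg, h⟩
  · simp only; omega
  · have := wf _ hg
    unfold Gadget.Wf at this
    simp only at this ⊢
    omega
  · rcases h with rfl | rfl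
    · simp only; omega
    · simp only; omega
  · rcases h with rfl | rfl
    · simp only; omega
    · simp only; omega
  · have := wf _ hg
    unfold Gadget.Wf at this
    simp only at this
    rcases h with rfl | rfl
    · simp only; omega
    · simp only; omega

/-- from a solution to the gadgets -/
theorem sat_of_btw {u : List CNFLetter} {r : ℕ → ℤ} (hb : ∀ x ∈ triples u, Btw r x)
    (h0 : r (3 * u.length + 2) < r (3 * u.length + 3)) : ∀ g ∈ gadgets u, g.Sat r := by
  have hmin : ∀ e, e < 3 * u.length + 2 → r (3 * u.length + 2) < r e := by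
    intro e he
    have h1 := hb (3 * u.length + 2, e, 3 * u.length + 3) (by
      unfold triples
      rw [List.mem_append, List.mem_map]
      exact Or.inl ⟨e, List.mem_range.2 he, rfl⟩)
    unfold Btw at h1
    simp only at h1
    omega
  have wf := wf_gadgets u
  intro g hg
  have hwfg := wf g hg
  unfold gadgets at hg
  rw [List.mem_cons, List.mem_append, List.mem_flatMap] at hg
  rcases hg with rfl | ⟨v, hv, hg⟩ | hg
  · have h1 := hb (3 * u.length + 2, 3 * u.length + 1, 2 * u.length) (by
      unfold triples
      rw [List.mem_append, List.mem_cons]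
      exact Or.inr (Or.inl rfl))
    have h2 := hmin (3 * u.length + 1) (by omega)
    unfold Btw at h1
    simp only at h1
    simp only [Gadget.Sat]
    omega
  · have hv' := List.mem_range.1 hv
    have hmem : ∀ x ∈ [(v, 3 * u.length + 4 + v, u.length + v),
          (3 * u.length + 2, 3 * u.length + 4 + v, 3 * u.length + 1),
          (v, 4 * u.length + 4 + v, u.length + v),
          (3 * u.length + 2, 3 * u.length + 1, 4 * u.length + 4 + v)], x ∈ triples u := by
      intro x hx
      unfold triples
      rw [List.mem_append, List.mem_cons, List.mem_append, List.mem_flatMap]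
      exact Or.inr (Or.inr (Or.inl ⟨v, hv, hx⟩))
    have h1 := hb _ (hmem (v, 3 * u.length + 4 + v, u.length + v) (by simp))
    have h2 := hb _ (hmem (3 * u.length + 2, 3 * u.length + 4 + v, 3 * u.length + 1) (by simp))
    have h3 := hb _ (hmem (v, 4 * u.length + 4 + v, u.length + v) (by simp))
    have h4 := hb _ (hmem (3 * u.length + 2, 3 * u.length + 1, 4 * u.length + 4 + v) (by simp))
    have h5 := hmin (3 * u.length + 1) (by omega)
    unfold Btw at h1 h2 h3 h4
    simp only at h1 h2 h3 h4
    simp only [List.mem_cons, List.not_mem_nil, or_false] at hg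
    rcases hg with rfl | rfl
    · simp only [Gadget.Sat]
      omega
    · simp only [Gadget.Sat]
      omega
  · have hmem : ∀ x ∈ wordT u.length 0 0 u, x ∈ triples u := by
      intro x hx
      unfold triples
      rw [List.mem_append, List.mem_cons, List.mem_append]
      exact Or.inr (Or.inr (Or.inr hx))
    rcases wordT_conv u.length u 0 0 g hg with ⟨a, b, rfl, h2⟩ | ⟨a, b, c, t, rfl, h2, h3⟩
    · have h4 := hb _ (hmem _ h2)
      unfold Gadget.Wf at hwfg
      simp only at hwfg
      have h5 := hmin b hwfg.2.1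
      unfold Btw at h4
      simp only at h4
      simp only [Gadget.Sat]
      omega
    · have h4 := hb _ (hmem _ h2)
      have h5 := hb _ (hmem _ h3)
      unfold Gadget.Wf at hwfg
      simp only at hwfg
      have h6 := hmin a hwfg.1
      unfold Btw at h4 h5
      simp only at h4 h5
      simp only [Gadget.Sat]
      omega

/-- from the gadgets to a solution -/
theorem btw_of_sat {u : List CNFLetter} {r : ℕ → ℤ} (hs : ∀ g ∈ gadgets u, g.Sat r)
    (hinj : ∀ a b, a < 3 * u.length + 2 → b < 3 * u.length + 2 → r a = r b → a = b) :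
    ∃ R : ℕ → ℤ, (∀ a b, a < 6 * u.length + 3 + 1 → b < 6 * u.length + 3 + 1 → R a = R b → a = b) ∧
      ∀ x ∈ triples u, Btw R x := by
  obtain ⟨β, hβ⟩ := triples_spec u
  have wf := wf_gadgets u
  set M := u.length with hM
  -- bounds of the ranks
  obtain ⟨B, hB⟩ : ∃ B : ℤ, ∀ e, e < 3 * M + 2 → -B < r e ∧ r e < B := by
    refine ⟨∑ e ∈ Finset.range (3 * M + 2), |r e| + 1, fun e he => ?_⟩
    have h1 : |r e| ≤ ∑ e ∈ Finset.range (3 * M + 2), |r e| :=
      Finset.single_le_sum (f := fun e => |r e|) (fun _ _ => abs_nonneg _) (Finset.mem_range.2 he)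
    have h2 := neg_abs_le (r e)
    have h3 := le_abs_self (r e)
    constructor <;> linarith
  set K : ℤ := 2 * (6 * M + 4) + 1 with hK
  have hKpos : 0 < K := by omega
  set R : ℕ → ℤ := fun e =>
    if e < 3 * M + 2 then K * r e else if e = 3 * M + 2 then K * (-B)
    else if e = 3 * M + 3 then K * B
    else if e < 4 * M + 4 then K * min (r (e - (3 * M + 4))) (r (M + (e - (3 * M + 4)))) + e
    else if e < 5 * M + 4 then K * max (r (e - (4 * M + 4))) (r (M + (e - (4 * M + 4)))) - e
    else K * max (r (β (e - (5 * M + 4)))) (r (2 * M + (e - (5 * M + 4)) + 1)) - e with hR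
  have R1 : ∀ e, e < 3 * M + 2 → R e = K * r e := fun e he => by simp only [hR]; rw [if_pos he]
  have R2 : R (3 * M + 2) = K * (-B) := by
    simp only [hR]; rw [if_neg (by omega), if_pos trivial]
  have R3 : R (3 * M + 3) = K * B := by
    simp only [hR]; rw [if_neg (by omega), if_neg (by omega), if_pos trivial]
  have R4 : ∀ v, v < M → R (3 * M + 4 + v) = K * min (r v) (r (M + v)) + (3 * M + 4 + v : ℕ) := by
    intro v hv
    simp only [hR]
    rw [if_neg (by omega), if_neg (by omega), if_neg (by omega), if_pos (by omega),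
      Nat.add_sub_cancel_left]
  have R5 : ∀ v, v < M → R (4 * M + 4 + v) = K * max (r v) (r (M + v)) - (4 * M + 4 + v : ℕ) := by
    intro v hv
    simp only [hR]
    rw [if_neg (by omega), if_neg (by omega), if_neg (by omega), if_neg (by omega),
      if_pos (by omega), Nat.add_sub_cancel_left]
  have R6 : ∀ q, R (5 * M + 4 + q) =
      K * max (r (β q)) (r (2 * M + q + 1)) - (5 * M + 4 + q : ℕ) := by
    intro q
    simp only [hR]
    rw [if_neg (by omega), if_neg (by omega), if_neg (by omega), if_neg (by omega),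
      if_neg (by omega), Nat.add_sub_cancel_left]
  -- classification of the values
  have hcl : ∀ e, e < 6 * M + 3 + 1 → (e < 3 * M + 2 ∧ R e = K * r e) ∨
      (e = 3 * M + 2 ∧ R e = K * (-B)) ∨ (e = 3 * M + 3 ∧ R e = K * B) ∨
      (3 * M + 3 < e ∧ e < 4 * M + 4 ∧ ∃ y : ℤ, R e = K * y + e) ∨
      (4 * M + 3 < e ∧ ∃ y : ℤ, R e = K * y - e) := by
    intro e he
    by_cases h1 : e < 3 * M + 2
    · exact Or.inl ⟨h1, R1 e h1⟩
    by_cases h2 : e = 3 * M + 2
    · exact Or.inr (Or.inl ⟨h2, by rw [h2, R2]⟩)
    by_cases h3 : e = 3 * M + 3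
    · exact Or.inr (Or.inr (Or.inl ⟨h3, by rw [h3, R3]⟩))
    by_cases h4 : e < 4 * M + 4
    · refine Or.inr (Or.inr (Or.inr (Or.inl ⟨by omega, h4, ?_⟩)))
      obtain ⟨v, rfl⟩ : ∃ v, e = 3 * M + 4 + v := ⟨e - (3 * M + 4), by omega⟩
      exact ⟨_, R4 v (by omega)⟩
    by_cases h5 : e < 5 * M + 4
    · refine Or.inr (Or.inr (Or.inr (Or.inr ⟨by omega, ?_⟩)))
      obtain ⟨v, rfl⟩ : ∃ v, e = 4 * M + 4 + v := ⟨e - (4 * M + 4), by omega⟩
      exact ⟨_, R5 v (by omega)⟩
    · refine Or.inr (Or.inr (Or.inr (Or.inr ⟨by omega, ?_⟩)))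
      obtain ⟨v, rfl⟩ : ∃ v, e = 5 * M + 4 + v := ⟨e - (5 * M + 4), by omega⟩
      exact ⟨_, R6 v⟩
  -- the residues
  have hres : ∀ (y y' d : ℤ), K * y = K * y' + d → -K < d → d < K → d = 0 ∧ y = y' := by
    intro y y' d h h1 h2
    have h3 : d = K * (y - y') := by linarith
    have h4 : y - y' = 0 := by
      rw [h3] at h1 h2
      have h5 : y - y' < 1 := by
        by_contra hc
        have : 1 ≤ y - y' := by omega
        nlinarith
      have h6 : -1 < y - y' := by
        by_contra hc
        have : y - y' ≤ -1 := by omega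
        nlinarith
      omega
    exact ⟨by rw [h3, h4, mul_zero], by omega⟩
  refine ⟨R, ?_, ?_⟩
  · intro a b ha hb hab
    have hBpos : -B < B := by have := hB 0 (by omega); omega
    rcases hcl a ha with ⟨a1, a2⟩ | ⟨a1, a2⟩ | ⟨a1, a2⟩ | ⟨a1, a2, ya, a3⟩ | ⟨a1, ya, a3⟩ <;>
      rcases hcl b hb with ⟨b1, b2⟩ | ⟨b1, b2⟩ | ⟨b1, b2⟩ | ⟨b1, b2, yb, b3⟩ | ⟨b1, yb, b3⟩
    · rw [a2, b2] at hab
      exact hinj a b a1 b1 ((hres (r a) (r b) 0 (by linarith) (by omega) (by omega)).2)
    · rw [a2, b2] at hab
      have h1 := (hres (r a) (-B) 0 (by linarith) (by omega) (by omega)).2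
      have h2 := hB a a1
      omega
    · rw [a2, b2] at hab
      have h1 := (hres (r a) B 0 (by linarith) (by omega) (by omega)).2
      have h2 := hB a a1
      omega
    · rw [a2, b3] at hab
      have h1 := (hres _ _ _ hab (by omega) (by omega)).1
      omega
    · rw [a2, b3] at hab
      have h1 := (hres (r a) yb (-b) (by linarith) (by omega) (by omega)).1
      omega
    · rw [a2, b2] at hab
      have h1 := (hres (-B) (r b) 0 (by linarith) (by omega) (by omega)).2
      have h2 := hB b b1
      omega
    · omega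
    · rw [a2, b2] at hab
      have h1 := (hres (-B) B 0 (by linarith) (by omega) (by omega)).2
      omega
    · rw [a2, b3] at hab
      have h1 := (hres _ _ _ hab (by omega) (by omega)).1
      omega
    · rw [a2, b3] at hab
      have h1 := (hres (-B) yb (-b) (by linarith) (by omega) (by omega)).1
      omega
    · rw [a2, b2] at hab
      have h1 := (hres B (r b) 0 (by linarith) (by omega) (by omega)).2
      have h2 := hB b b1
      omega
    · rw [a2, b2] at hab
      have h1 := (hres B (-B) 0 (by linarith) (by omega) (by omega)).2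
      omega
    · omega
    · rw [a2, b3] at hab
      have h1 := (hres _ _ _ hab (by omega) (by omega)).1
      omega
    · rw [a2, b3] at hab
      have h1 := (hres B yb (-b) (by linarith) (by omega) (by omega)).1
      omega
    · rw [a3, b2] at hab
      have h1 := (hres _ _ _ hab.symm (by omega) (by omega)).1
      omega
    · rw [a3, b2] at hab
      have h1 := (hres _ _ _ hab.symm (by omega) (by omega)).1
      omega
    · rw [a3, b2] at hab
      have h1 := (hres _ _ _ hab.symm (by omega) (by omega)).1
      omega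
    · rw [a3, b3] at hab
      have h1 := (hres ya yb (b - a) (by linarith) (by omega) (by omega)).1
      omega
    · rw [a3, b3] at hab
      have h1 := (hres ya yb (-b - a) (by linarith) (by omega) (by omega)).1
      omega
    · rw [a3, b2] at hab
      have h1 := (hres (r b) ya (-a) (by linarith) (by omega) (by omega)).1
      omega
    · rw [a3, b2] at hab
      have h1 := (hres (-B) ya (-a) (by linarith) (by omega) (by omega)).1
      omega
    · rw [a3, b2] at hab
      have h1 := (hres B ya (-a) (by linarith) (by omega) (by omega)).1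
      omega
    · rw [a3, b3] at hab
      have h1 := (hres ya yb (a + b) (by linarith) (by omega) (by omega)).1
      omega
    · rw [a3, b3] at hab
      have h1 := (hres ya yb (a - b) (by linarith) (by omega) (by omega)).1
      omega
  · -- strict inequalities after multiplication
    have hlt : ∀ y y' : ℤ, y < y' → K * y < K * y' := fun y y' h => mul_lt_mul_of_pos_left h hKpos
    have hlt1 : ∀ (y y' d : ℤ), y < y' → 0 < d → d < K → K * y < K * y' - d := by
      intro y y' d h h1 h2
      have h3 : K * (y + 1) ≤ K * y' := mul_le_mul_of_nonneg_left (by omega) hKpos.le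
      linarith
    have hlt2 : ∀ (y y' d : ℤ), y < y' → 0 < d → d < K → K * y + d < K * y' := by
      intro y y' d h h1 h2
      have h3 : K * (y + 1) ≤ K * y' := mul_le_mul_of_nonneg_left (by omega) hKpos.le
      linarith
    -- a point just above the minimum or just below the maximum
    have hmin : ∀ (y z d : ℤ), y ≠ z → 0 < d → d < K →
        (K * y < K * min y z + d ∧ K * min y z + d < K * z) ∨
          (K * z < K * min y z + d ∧ K * min y z + d < K * y) := by
      intro y z d h h1 h2
      rcases lt_or_gt_of_ne h with h3 | h3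
      · rw [min_eq_left h3.le]
        exact Or.inl ⟨by linarith, hlt2 _ _ _ h3 h1 h2⟩
      · rw [min_eq_right h3.le]
        exact Or.inr ⟨by linarith, hlt2 _ _ _ h3 h1 h2⟩
    have hmax : ∀ (y z d : ℤ), y ≠ z → 0 < d → d < K →
        (K * y < K * max y z - d ∧ K * max y z - d < K * z) ∨
          (K * z < K * max y z - d ∧ K * max y z - d < K * y) := by
      intro y z d h h1 h2
      rcases lt_or_gt_of_ne h with h3 | h3
      · rw [max_eq_right h3.le]
        exact Or.inl ⟨hlt1 _ _ _ h3 h1 h2, by linarith⟩
      · rw [max_eq_left h3.le]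
        exact Or.inr ⟨hlt1 _ _ _ h3 h1 h2, by linarith⟩
    intro x hx
    unfold Btw
    rcases hβ x hx with ⟨e, he, rfl⟩ | ⟨a, b, rfl, hg⟩ | ⟨v, hv, hg, h⟩ | ⟨v, hv, hg, h⟩ |
      ⟨q, hq, hg, h⟩
    · simp only
      rw [R2, R3, R1 e he]
      have := hB e he
      exact Or.inl ⟨hlt _ _ this.1, hlt _ _ this.2⟩
    · have hw := wf _ hg
      have hS := hs _ hg
      unfold Gadget.Wf at hw
      simp only at hw
      simp only [Gadget.Sat] at hS
      simp only
      rw [R2, R1 a hw.1, R1 b hw.2.1]
      exact Or.inl ⟨hlt _ _ (hB b hw.2.1).1, hlt _ _ hS⟩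
    · have hS := hs _ hg
      simp only [Gadget.Sat] at hS
      have hne : r v ≠ r (M + v) := by
        intro h0
        have := hinj v (M + v) (by omega) (by omega) h0
        omega
      rcases h with rfl | rfl
      · simp only
        rw [R1 v (by omega), R1 (M + v) (by omega), R4 v hv]
        exact hmin _ _ _ hne (by omega) (by omega)
      · simp only
        rw [R2, R1 (3 * M + 1) (by omega), R4 v hv]
        left
        have h1 := hB v (by omega)
        have h2 := hB (M + v) (by omega)
        have h3 : min (r v) (r (M + v)) < r (3 * M + 1) := by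
          rw [min_lt_iff]; exact hS
        have h4 : -B < min (r v) (r (M + v)) := lt_min h1.1 h2.1
        refine ⟨?_, hlt2 _ _ _ h3 (by omega) (by omega)⟩
        have := hlt _ _ h4
        omega
    · have hS := hs _ hg
      simp only [Gadget.Sat] at hS
      have hne : r v ≠ r (M + v) := by
        intro h0
        have := hinj v (M + v) (by omega) (by omega) h0
        omega
      rcases h with rfl | rfl
      · simp only
        rw [R1 v (by omega), R1 (M + v) (by omega), R5 v hv]
        exact hmax _ _ _ hne (by omega) (by omega)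
      · simp only
        rw [R2, R1 (3 * M + 1) (by omega), R5 v hv]
        left
        have h3 : r (3 * M + 1) < max (r v) (r (M + v)) := by
          rw [lt_max_iff]; exact hS
        exact ⟨hlt _ _ (hB _ (by omega)).1, hlt1 _ _ _ h3 (by omega) (by omega)⟩
    · have hw := wf _ hg
      have hS := hs _ hg
      unfold Gadget.Wf at hw
      simp only at hw
      simp only [Gadget.Sat] at hS
      have hne : r (β q) ≠ r (2 * M + q + 1) := by
        intro h0
        have := hinj (β q) (2 * M + q + 1) (by omega) (by omega) h0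
        omega
      rcases h with rfl | rfl
      · simp only
        rw [R1 (β q) (by omega), R1 (2 * M + q + 1) (by omega), R6 q]
        exact hmax _ _ _ hne (by omega) (by omega)
      · simp only
        rw [R2, R1 (2 * M + q) (by omega), R6 q]
        left
        have h3 : r (2 * M + q) < max (r (β q)) (r (2 * M + q + 1)) := by
          rw [lt_max_iff]; exact hS
        exact ⟨hlt _ _ (hB _ (by omega)).1, hlt1 _ _ _ h3 (by omega) (by omega)⟩

theorem kred : KredStmt := by
  intro F
  have hlen : (encodeCNF F).reverse.length = (encodeCNF F).length := List.length_reverse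
  have hok : ∀ x ∈ triples (encodeCNF F).reverse, Ok (6 * (encodeCNF F).length + 3 + 1) x := by
    intro x hx
    have := triples_ok _ x hx
    rwa [hlen] at this
  refine ⟨distinct_of hok, ?_⟩
  unfold instF
  rw [solvable_iff hok]
  constructor
  · rintro ⟨r, hr, hb⟩
    set u := (encodeCNF F).reverse with hu
    have hne : r (3 * u.length + 2) ≠ r (3 * u.length + 3) := by
      intro h0
      have := hr _ _ (by omega) (by omega) h0
      omega
    rcases lt_or_gt_of_ne hne with h | h
    · exact sat_of_rank (sat_of_btw hb h)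
    · refine sat_of_rank (r := fun e => -r e) (sat_of_btw (fun x hx => ?_) ?_)
      · have := hb x hx
        unfold Btw at this ⊢
        beta_reduce
        omega
      · rw [← hu]
        exact neg_lt_neg h
  · rintro ⟨v, hv⟩
    obtain ⟨r, h1, h2⟩ := rank_of_sat hv
    rw [← hlen] at h2
    obtain ⟨R, h3, h4⟩ := btw_of_sat h1 h2
    rw [hlen] at h3
    exact ⟨R, h3, h4⟩

end Pool.Agent.SO.H92
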