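import Pool.Agent.Helper88_SO.Tools

/-!
# SO modules POS and ENC
-/

namespace Pool.Agent.SO.H92

/-- positions of the elements from a solution -/
noncomputable def psOf {n : ℕ} (r : Fin n → ℤ) (i : Fin (n + 2)) : ℕ :=
  if h : i.val < n then (Finset.univ.filter fun k : Fin n => r k < r ⟨i.val, h⟩).card else i.val

theorem psOf_lt {n : ℕ} (r : Fin n → ℤ) (i : Fin (n + 2)) (h : i.val < n) : psOf r i < n := by
  unfold psOf
  rw [dif_pos h]
  have h1 : (Finset.univ.filter fun k : Fin n => r k < r ⟨i.val, h⟩) ⊂ Finset.univ := by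
    rw [Finset.ssubset_univ_iff]
    intro h2
    have h3 : (⟨i.val, h⟩ : Fin n) ∈ (Finset.univ.filter fun k : Fin n => r k < r ⟨i.val, h⟩) := by
      rw [h2]; exact Finset.mem_univ _
    rw [Finset.mem_filter] at h3
    exact lt_irrefl _ h3.2
  have := Finset.card_lt_card h1
  rwa [Finset.card_univ, Fintype.card_fin] at this

theorem psOf_mono {n : ℕ} (r : Fin n → ℤ) (i k : Fin (n + 2)) (hi : i.val < n) (hk : k.val < n)
    (h : r ⟨i.val, hi⟩ < r ⟨k.val, hk⟩) : psOf r i < psOf r k := by
  unfold psOf
  rw [dif_pos hi, dif_pos hk]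
  refine Finset.card_lt_card ?_
  rw [Finset.ssubset_iff_of_subset]
  · refine ⟨⟨i.val, hi⟩, ?_, ?_⟩
    · rw [Finset.mem_filter]
      exact ⟨Finset.mem_univ _, h⟩
    · rw [Finset.mem_filter]
      exact fun h2 => lt_irrefl _ h2.2
  · intro x hx
    rw [Finset.mem_filter] at hx ⊢
    exact ⟨hx.1, hx.2.trans h⟩

theorem el_val {n m : ℕ} (T : Fin m → Fin 3 → Fin n) (j : Fin m) (k : Fin 5) (h : k.val < 3) :
    (el T j k).val = (T j ⟨k.val, h⟩).val := by
  unfold el
  rw [dif_pos h]

theorem pos : PosStmt := by
  constructor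
  · intro n m T _ hS
    obtain ⟨r, hr, hb⟩ := hS
    refine ⟨psOf r, ⟨?_, psOf_lt r, ?_, ?_, ?_⟩⟩
    · intro i k hik
      by_cases hi : i.val < n
      · by_cases hk : k.val < n
        · rcases lt_trichotomy (r ⟨i.val, hi⟩) (r ⟨k.val, hk⟩) with h | h | h
          · exact absurd hik (psOf_mono r i k hi hk h).ne
          · have := hr h
            exact Fin.ext (Fin.mk.inj_iff.1 this)
          · exact absurd hik (psOf_mono r k i hk hi h).ne'
        · have h1 := psOf_lt r i hi
          have h2 : psOf r k = k.val := dif_neg hk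
          omega
      · by_cases hk : k.val < n
        · have h1 := psOf_lt r k hk
          have h2 : psOf r i = i.val := dif_neg hi
          omega
        · have h1 : psOf r i = i.val := dif_neg hi
          have h2 : psOf r k = k.val := dif_neg hk
          exact Fin.ext (by omega)
    · intro i hi
      unfold psOf
      rw [dif_neg (by omega), hi]
    · intro i hi
      unfold psOf
      rw [dif_neg (by omega), hi]
    · intro j
      have key : ∀ (a b : Fin 5) (ha : a.val < 3) (hb : b.val < 3),
          r (T j ⟨a.val, ha⟩) < r (T j ⟨b.val, hb⟩) → psOf r (el T j a) < psOf r (el T j b) := by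
        intro a b ha hb h
        have h1 := el_val T j a ha
        have h2 := el_val T j b hb
        have h3 : (el T j a).val < n := by rw [h1]; exact (T j ⟨a.val, ha⟩).isLt
        have h4 : (el T j b).val < n := by rw [h2]; exact (T j ⟨b.val, hb⟩).isLt
        refine psOf_mono r _ _ h3 h4 ?_
        have e1 : (⟨(el T j a).val, h3⟩ : Fin n) = T j ⟨a.val, ha⟩ := Fin.ext h1
        have e2 : (⟨(el T j b).val, h4⟩ : Fin n) = T j ⟨b.val, hb⟩ := Fin.ext h2
        rw [e1, e2]
        exact h
      rcases hb j with ⟨h1, h2⟩ | ⟨h1, h2⟩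
      · exact Or.inl ⟨key 0 1 (by decide) (by decide) h1, key 1 2 (by decide) (by decide) h2⟩
      · exact Or.inr ⟨key 2 1 (by decide) (by decide) h1, key 1 0 (by decide) (by decide) h2⟩
  · intro n m T u
    have hother : ∀ i : Fin (n + 2), ∃ i', i ≠ i' := by
      intro i
      by_cases h : i = 0
      · refine ⟨Fin.last (n + 1), ?_⟩
        rw [h]
        intro h2
        have := congrArg Fin.val h2
        simp at this
      · exact ⟨0, h⟩
    cases u with
    | top i =>
      obtain ⟨i', hi⟩ := hother i
      exact ⟨.top i', fun h => hi (Vx.top.inj h), Or.inl hi⟩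
    | hel i =>
      obtain ⟨i', hi⟩ := hother i
      exact ⟨.top i', fun h => (by cases h), Or.inl hi⟩
    | jam j s =>
      refine ⟨.jam j (!s), fun h => ?_, Or.inl (Or.inr ?_)⟩
      · have := (Vx.jam.inj h).2
        cases s <;> simp at this
      · cases s <;> simp
    | hj j s => exact ⟨.top 0, fun h => (by cases h), Or.inl trivial⟩
    | pr j k => exact ⟨.jam j true, fun h => (by cases h), Or.inl rfl⟩
    | hc j k => exact ⟨.jam j true, fun h => (by cases h), Or.inl rfl⟩
    | hd j s =>
      refine ⟨.jam j (!s), fun h => (by cases h), Or.inl ⟨rfl, ?_⟩⟩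
      cases s <;> simp
    | ho j s t => exact ⟨.jam j s, fun h => (by cases h), Or.inl ⟨rfl, rfl⟩⟩

/-! ### ENC -/

theorem flatMap_inj {α β : Type} (f g : α → List β) : ∀ l : List α,
    (∀ i ∈ l, (f i).length = (g i).length) → l.flatMap f = l.flatMap g → ∀ i ∈ l, f i = g i := by
  intro l
  induction l with
  | nil => intro _ _ i hi; simp at hi
  | cons a l ih =>
    intro hlen h i hi
    rw [List.flatMap_cons, List.flatMap_cons] at h
    obtain ⟨h1, h2⟩ := List.append_inj h (hlen a (List.mem_cons_self))
    rcases List.mem_cons.1 hi with rfl | hi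
    · exact h1
    · exact ih (fun i hi => hlen i (List.mem_cons_of_mem _ hi)) h2 i hi

open Classical in
theorem count_row (x : Σ N : ℕ, SimpleGraph (Fin N)) : (encGraph x).count GLetter.row = x.1 := by
  unfold encGraph
  rw [List.count_flatMap]
  have h : ∀ i ∈ List.finRange x.1, (List.count GLetter.row ∘ fun i =>
      GLetter.row :: (List.finRange x.1).map fun k =>
        if x.2.Adj i k then GLetter.one else GLetter.zero) i = 1 := by
    intro i _
    simp only [Function.comp, List.count_cons_self]
    have : List.count GLetter.row ((List.finRange x.1).map fun k =>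
        if x.2.Adj i k then GLetter.one else GLetter.zero) = 0 := by
      rw [List.count_eq_zero]
      intro hmem
      rw [List.mem_map] at hmem
      obtain ⟨k, -, hk⟩ := hmem
      split_ifs at hk
    rw [this]
  rw [List.map_congr_left h]
  simp

theorem enc : EncStmt := by
  rintro ⟨N, G⟩ ⟨N', G'⟩ h
  have h1 := count_row ⟨N, G⟩
  have h2 := count_row ⟨N', G'⟩
  rw [h, h2] at h1
  simp only at h1
  subst h1
  congr 1
  unfold encGraph at h
  simp only at h
  have h3 := flatMap_inj _ _ _ (fun i _ => by simp) h
  ext i k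
  have h4 := h3 i (List.mem_finRange i)
  rw [List.cons.injEq] at h4
  have h5 := h4.2
  rw [List.map_inj_left] at h5
  have h6 := h5 k (List.mem_finRange k)
  by_cases ha : G.Adj i k
  · by_cases hb : G'.Adj i k
    · exact iff_of_true ha hb
    · rw [if_pos ha, if_neg hb] at h6
      cases h6
  · by_cases hb : G'.Adj i k
    · rw [if_neg ha, if_pos hb] at h6
      cases h6
    · exact iff_of_false ha hb

end Pool.Agent.SO.H92
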